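import Pool.Agent.Helper25_CN2.Stmts
import Pool.Agent.Helper25_CON.PDLem
import Pool.Agent.Helper47_CON.Non

/-! # J_REF: a reflective vector in the span of C (squad CN2, MP_6d18f4_al) -/

set_option autoImplicit false

noncomputable section

namespace Pool.Agent.CN2.H40

open Pool.Agent.CON

variable {M : Type} [AddCommGroup M] {b : M → M → ℤ} {C : Set M} {s : ℤ}

/-- two different roots are independent -/
theorem li_two (hb : PD b) (hC : Irr b C s) {γ δ : M} (hγ : γ ∈ C) (hδ : δ ∈ C)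
    (h1 : δ ≠ γ) (h2 : δ ≠ -γ) : LinearIndependent ℤ ![γ, δ] := by
  have hs := hC.pos
  rw [LinearIndependent.pair_iff]
  intro p q hpq
  have e1 : b (p • γ + q • δ) γ = 0 := by rw [hpq, hb.zero_left]
  have e2 : b (p • γ + q • δ) δ = 0 := by rw [hpq, hb.zero_left]
  rw [hb.add_left, hb.zsmul_left, hb.zsmul_left, hC.norm γ hγ, hb.symm δ γ] at e1
  rw [hb.add_left, hb.zsmul_left, hb.zsmul_left, hC.norm δ hδ] at e2
  have h3 : b γ δ = 0 ∨ b γ δ = s ∨ b γ δ = -s := by
    by_cases h0 : b γ δ = 0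
    · exact Or.inl h0
    · exact Or.inr (H47.prod_cases hb hC hγ hδ h0 h1 h2)
  rcases h3 with h | h | h
  · rw [h] at e1 e2
    constructor <;> nlinarith
  · rw [h] at e1 e2
    have e3 : s * (2 * p + q) = 0 := by linarith
    have e4 : s * (p + 2 * q) = 0 := by linarith
    have e5 := (mul_eq_zero.mp e3).resolve_left hs.ne'
    have e6 := (mul_eq_zero.mp e4).resolve_left hs.ne'
    constructor <;> omega
  · rw [h] at e1 e2
    have e3 : s * (2 * p - q) = 0 := by linarith
    have e4 : s * (2 * q - p) = 0 := by linarith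
    have e5 := (mul_eq_zero.mp e3).resolve_left hs.ne'
    have e6 := (mul_eq_zero.mp e4).resolve_left hs.ne'
    constructor <;> omega

/-- three elements of the span of two elements are dependent -/
theorem not_rk3 {γ t : M} (h : ∀ α ∈ C, ∃ i j : ℤ, α = i • γ + j • t) : ¬ Rk C 3 := by
  rintro ⟨c, hc, hl⟩
  obtain ⟨a0, b0, e0⟩ := h _ (hc 0)
  obtain ⟨a1, b1, e1⟩ := h _ (hc 1)
  obtain ⟨a2, b2, e2⟩ := h _ (hc 2)
  have hl' := Fintype.linearIndependent_iff.mp hl
  have h1 := hl' ![a1 * b2 - a2 * b1, a2 * b0 - a0 * b2, a0 * b1 - a1 * b0] (by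
    rw [Fin.sum_univ_three]
    simp only [Matrix.cons_val_zero, Matrix.cons_val_one, Matrix.cons_val]
    rw [e0, e1, e2]
    module)
  have m2 := h1 2
  simp only [Matrix.cons_val] at m2
  have h2 := hl' ![a1, -a0, 0] (by
    rw [Fin.sum_univ_three]
    simp only [Matrix.cons_val_zero, Matrix.cons_val_one, Matrix.cons_val]
    rw [e0, e1, e2]
    have : a1 • (a0 • γ + b0 • t) + -a0 • (a1 • γ + b1 • t) + (0 : ℤ) • (a2 • γ + b2 • t) =
        (-(a0 * b1 - a1 * b0)) • t := by module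
    rw [this, m2]; simp)
  have h3 := hl' ![b1, -b0, 0] (by
    rw [Fin.sum_univ_three]
    simp only [Matrix.cons_val_zero, Matrix.cons_val_one, Matrix.cons_val]
    rw [e0, e1, e2]
    have : b1 • (a0 • γ + b0 • t) + -b0 • (a1 • γ + b1 • t) + (0 : ℤ) • (a2 • γ + b2 • t) =
        ((a0 * b1 - a1 * b0)) • γ := by module
    rw [this, m2]; simp)
  have k1 := h2 1
  have k2 := h3 1
  simp only [Matrix.cons_val_one, Matrix.cons_val] at k1 k2
  have k3 : c 0 = 0 := by
    rw [e0, neg_eq_zero.mp k1, neg_eq_zero.mp k2]; simp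
  exact hl.ne_zero 0 k3

/-- **J_REF** -/
theorem j_ref (_ : E_VAL) : J_REF := by
  intro M _ b C s h t hb hC ht ht0 hodd hn hdv
  have hs := hC.pos
  have htp := hb.pos t ht0
  have hh : 0 < h := by
    rw [hn] at htp
    by_contra hc
    nlinarith
  -- a root not orthogonal to t
  obtain ⟨γ0, hγ0, hg0⟩ : ∃ γ ∈ C, b t γ ≠ 0 := by
    by_contra hc
    push Not at hc
    have := hb.closure_dvd (C := C) (y := t) (d := 0) (fun x hx => by
      rw [hb.symm, hc x hx]) t ht
    rw [zero_dvd_iff] at this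
    omega
  have key : ∀ γ ∈ C, ∃ m : ℤ, b t γ = s * h * m ∧ m ^ 2 * h ≤ 4 := by
    intro γ hγ
    obtain ⟨m, hm⟩ := hdv γ hγ
    refine ⟨m, hm, ?_⟩
    have h1 := hb.cs t γ
    rw [hm, hn, hC.norm γ hγ] at h1
    have h2 : (s ^ 2 * h) * (m ^ 2 * h) ≤ (s ^ 2 * h) * 4 := by nlinarith
    exact le_of_mul_le_mul_left h2 (by positivity)
  have h3 : h = 1 ∨ h = 3 := by
    obtain ⟨m, hm, hm4⟩ := key γ0 hγ0
    have hm0 : m ≠ 0 := by rintro rfl; simp at hm; exact hg0 hm
    have : 1 ≤ m ^ 2 := by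
      have := sq_nonneg m
      have h5 : m ^ 2 ≠ 0 := pow_ne_zero _ hm0
      omega
    have : h ≤ 4 := by nlinarith
    omega
  rcases h3 with h3 | h3
  · exact Or.inl h3
  right
  refine ⟨h3, ?_⟩
  subst h3
  have key2 : ∀ γ ∈ C, b t γ = 0 ∨ b t γ = 3 * s ∨ b t γ = -(3 * s) := by
    intro γ hγ
    obtain ⟨m, hm, hm4⟩ := key γ hγ
    have h5 : -1 ≤ m := by nlinarith
    have h6 : m ≤ 1 := by nlinarith
    have h7 : m = -1 ∨ m = 0 ∨ m = 1 := by omega
    rcases h7 with rfl | rfl | rfl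
    · right; right; rw [hm]; ring
    · left; rw [hm]; ring
    · right; left; rw [hm]; ring
  obtain ⟨γ, hγ, hg⟩ : ∃ γ ∈ C, b t γ = 3 * s := by
    rcases key2 γ0 hγ0 with h | h | h
    · exact absurd h hg0
    · exact ⟨γ0, hγ0, h⟩
    · exact ⟨-γ0, H47.neg_mem hC hγ0, by rw [hb.neg_right, h, neg_neg]⟩
  -- roots with the same product
  have c1 : ∀ γ' ∈ C, b t γ' = 3 * s → γ' = γ ∨ γ' = t - γ := by
    intro γ' hγ' hg'
    obtain ⟨k, hk⟩ := hC.dvd γ hγ γ' hγ'
    have n1 := hb.nonneg (γ + γ' - t)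
    have e1 : b (γ + γ' - t) (γ + γ' - t) = b γ γ + b γ' γ' + b t t + 2 * b γ γ' - 2 * b t γ
        - 2 * b t γ' := by
      rw [hb.sub_left, hb.add_left, hb.sub_right, hb.add_right, hb.sub_right, hb.add_right,
        hb.sub_right, hb.add_right, hb.symm γ' γ, hb.symm γ t, hb.symm γ' t]
      ring
    have e1' : b (γ + γ' - t) (γ + γ' - t) = 2 * b γ γ' - 2 * s := by
      rw [e1, hC.norm γ hγ, hC.norm γ' hγ', hn, hg, hg']; ring
    have e2 : b (γ - γ') (γ - γ') = b γ γ + b γ' γ' - 2 * b γ γ' := by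
      rw [hb.sub_left, hb.sub_right, hb.sub_right, hb.symm γ' γ]; ring
    have e2' : b (γ - γ') (γ - γ') = 4 * s - 2 * b γ γ' := by
      rw [e2, hC.norm γ hγ, hC.norm γ' hγ']; ring
    have hk1 : 1 ≤ k := by
      rw [e1', hk] at n1
      nlinarith
    rcases eq_or_lt_of_le hk1 with h | h
    · right
      have : γ + γ' - t = 0 := hb.eq_zero (by rw [e1', hk, ← h]; linarith)
      rw [sub_eq_zero] at this
      rw [← this]; abel
    · left
      have : γ - γ' = 0 := hb.eq_zero (by rw [e2', hk]; nlinarith)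
      exact (sub_eq_zero.mp this).symm
  have c1' : ∀ δ ∈ C, b t δ ≠ 0 → ∃ i j : ℤ, δ = i • γ + j • t := by
    intro δ hδ h0
    rcases key2 δ hδ with h | h | h
    · exact absurd h h0
    · rcases c1 δ hδ h with h4 | h4
      · exact ⟨1, 0, by rw [h4]; simp⟩
      · exact ⟨-1, 1, by rw [h4]; module⟩
    · rcases c1 (-δ) (H47.neg_mem hC hδ) (by rw [hb.neg_right, h, neg_neg]) with h4 | h4
      · exact ⟨-1, 0, by rw [← neg_neg δ, h4]; module⟩
      · exact ⟨1, -1, by rw [← neg_neg δ, h4]; module⟩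
  have c2 : ∀ δ ∈ C, b t δ = 0 → b γ δ ≠ 0 → ∃ i j : ℤ, δ = i • γ + j • t := by
    intro δ hδ h0 h4
    have h5 : δ ≠ γ := by rintro rfl; omega
    have h6 : δ ≠ -γ := by rintro rfl; rw [hb.neg_right] at h0; omega
    rcases H47.prod_cases hb hC hγ hδ h4 h5 h6 with h7 | h7
    · have h8 : γ - (1 : ℤ) • δ ∈ C := hC.refl δ hδ γ hγ 1 (by rw [hb.symm, h7, one_mul])
      rw [one_smul] at h8
      rcases c1 _ h8 (by rw [hb.sub_right, hg, h0]; ring) with h9 | h9
      · exfalso
        have : δ = 0 := by simpa using h9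
        rw [this, hb.zero_right] at h4; exact h4 rfl
      · refine ⟨2, -1, ?_⟩
        have : δ = γ - (γ - δ) := by abel
        rw [this, h9]; module
    · have h8 : γ - (-1 : ℤ) • δ ∈ C := hC.refl δ hδ γ hγ (-1) (by rw [hb.symm, h7]; ring)
      rw [neg_one_zsmul, sub_neg_eq_add] at h8
      rcases c1 _ h8 (by rw [hb.add_right, hg, h0]; ring) with h9 | h9
      · exfalso
        have : δ = 0 := by simpa using h9
        rw [this, hb.zero_right] at h4; exact h4 rfl
      · refine ⟨-2, 1, ?_⟩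
        have : δ = (γ + δ) - γ := by abel
        rw [this, h9]; module
  have hD : {α | α ∈ C ∧ ∃ i j : ℤ, α = i • γ + j • t} = C := by
    refine hC.conn _ (fun x hx => hx.1) ⟨γ, hγ, 1, 0, by simp⟩ ?_
    rintro α ⟨hα, i, j, hij⟩ β hβ hβD
    have h4 : b t β = 0 := by
      by_contra h0
      exact hβD ⟨hβ, c1' β hβ h0⟩
    have h5 : b γ β = 0 := by
      by_contra h0
      exact hβD ⟨hβ, c2 β hβ h4 h0⟩
    rw [hij, hb.add_left, hb.zsmul_left, hb.zsmul_left, h4, h5]; ring
  refine ⟨?_, not_rk3 (γ := γ) (t := t) fun α hα => ?_⟩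
  · by_cases hall : ∀ δ ∈ C, δ = γ ∨ δ = -γ
    · exfalso
      have hm : ∀ x ∈ AddSubgroup.closure C, ∃ m : ℤ, x = m • γ := by
        intro x hx
        induction hx using AddSubgroup.closure_induction with
        | mem x hx =>
          rcases hall x hx with h | h
          · exact ⟨1, by rw [h, one_smul]⟩
          · exact ⟨-1, by rw [h]; simp⟩
        | zero => exact ⟨0, by simp⟩
        | add x y _ _ hx hy =>
          obtain ⟨m, rfl⟩ := hx
          obtain ⟨n, rfl⟩ := hy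
          exact ⟨m + n, by rw [add_smul]⟩
        | neg x _ hx =>
          obtain ⟨m, rfl⟩ := hx
          exact ⟨-m, by rw [neg_smul]⟩
      obtain ⟨m, rfl⟩ := hm t ht
      rw [hb.zsmul_left, hb.zsmul_right, hC.norm γ hγ] at hn
      have h4 : s * (m * m) = s * 3 := by linarith
      have h5 : m * m = 3 := mul_left_cancel₀ hs.ne' h4
      have h6 : m ≤ 1 := by nlinarith
      have h7 : -1 ≤ m := by nlinarith
      have h8 : m = -1 ∨ m = 0 ∨ m = 1 := by omega
      rcases h8 with rfl | rfl | rfl <;> omega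
    · push Not at hall
      obtain ⟨δ, hδ, h1, h2⟩ := hall
      exact ⟨![γ, δ], fun i => by fin_cases i <;> simpa, li_two hb hC hγ hδ h1 h2⟩
  · have : α ∈ {α | α ∈ C ∧ ∃ i j : ℤ, α = i • γ + j • t} := by rw [hD]; exact hα
    exact this.2

end Pool.Agent.CN2.H40
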