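import Pool.Agent.Helper25_CN2.Stmts
import Pool.Agent.Helper25_CON.PDLem

/-! # J_ROOT: the class of a root, s odd (squad CN2, MP_6d18f4_al) -/

set_option autoImplicit false

noncomputable section

namespace Pool.Agent.CN2.H40

open Pool.Agent.CON

variable {M : Type} [AddCommGroup M] {b : M → M → ℤ} {C : Set M} {s : ℤ}

/-- equality, first case: a vector of norm 2 s in the class of α -/
theorem root_one (hVal : E_VAL) (hb : PD b) (hC : Irr b C s) {α z t : M} (hα : α ∈ C)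
    (hz : z ∈ AddSubgroup.closure C) (ht : t = α + (2 : ℤ) • z) (hn : b t t = 2 * s) :
    t = α ∨ t = -α := by
  have hs := hC.pos
  obtain ⟨k, hk⟩ := (hVal M b C s hb hC z hz).2
  have e1 : b t α = 2 * s + 2 * b z α := by
    rw [ht, hb.add_left, hb.zsmul_left, hC.norm α hα]
  have e2 : b t t = 2 * s + 4 * b z α + 4 * b z z := by
    rw [ht, hb.add_left, hb.add_right, hb.add_right, hb.zsmul_left, hb.zsmul_right,
      hb.zsmul_left, hb.zsmul_right, hC.norm α hα, hb.symm α z]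
    ring
  have e3 : b t α = 2 * s - 4 * s * k := by
    have : b z α = - b z z := by linarith
    rw [e1, this, hk]; ring
  have h1 := hb.cs t α
  rw [hn, hC.norm α hα, e3] at h1
  have h2 : (s * s) * ((1 - 2 * k) ^ 2) ≤ (s * s) * 1 := by nlinarith
  have h3 : (1 - 2 * k) ^ 2 ≤ 1 := le_of_mul_le_mul_left h2 (by positivity)
  have h4 : 0 ≤ k := by nlinarith
  have h5 : k ≤ 1 := by nlinarith
  have h6 : k = 0 ∨ k = 1 := by omega
  rcases h6 with rfl | rfl
  · left
    have : z = 0 := hb.eq_zero (by rw [hk]; simp)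
    rw [ht, this]; simp
  · right
    have e4 : b (t + α) (t + α) = 0 := by
      rw [hb.add_left, hb.add_right, hb.add_right, hb.symm α t, hn, hC.norm α hα, e3]; ring
    have : t + α = 0 := hb.eq_zero e4.le
    exact eq_neg_of_add_eq_zero_left this

/-- equality, second case: a reflective vector of norm 6 s in the class of α -/
theorem root_three (hVal : E_VAL) (hb : PD b) (hC : Irr b C s) {α z t : M} (hα : α ∈ C)
    (hz : z ∈ AddSubgroup.closure C) (ht : t = α + (2 : ℤ) • z) (hn : b t t = 6 * s)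
    (hd : 3 * s ∣ b t α) : b t α = 0 := by
  have hs := hC.pos
  obtain ⟨k, hk⟩ := (hVal M b C s hb hC z hz).1 α (AddSubgroup.subset_closure hα)
  obtain ⟨n, hn'⟩ := hd
  have e1 : b t α = 2 * s + 2 * b z α := by
    rw [ht, hb.add_left, hb.zsmul_left, hC.norm α hα]
  have h1 := hb.cs t α
  rw [hn, hC.norm α hα, hn'] at h1
  have h2 : (s * s) * (9 * n ^ 2) ≤ (s * s) * 12 := by nlinarith
  have h3 : 9 * n ^ 2 ≤ 12 := le_of_mul_le_mul_left h2 (by positivity)
  have h4 : -1 ≤ n := by nlinarith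
  have h5 : n ≤ 1 := by nlinarith
  have e2 : s * (3 * n) = s * (2 + 2 * k) := by
    rw [hn', hk] at e1; linarith
  have e3 : 3 * n = 2 + 2 * k := mul_left_cancel₀ hs.ne' e2
  have h6 : n = 0 := by omega
  rw [hn', h6, mul_zero]

/-- the vector is not zero -/
theorem class_ne (hN2 : E_N2) (hb : PD b) (hC : Irr b C s) {α z t : M} (hα : α ∈ C)
    (hz : z ∈ AddSubgroup.closure C) (ht : t = α + (2 : ℤ) • z) : t ≠ 0 := by
  rintro rfl
  refine (hN2 M b C s hb hC).1 α hα (-z) (AddSubgroup.neg_mem _ hz) ?_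
  rw [smul_neg]
  exact eq_neg_of_add_eq_zero_left ht.symm

/-- **J_ROOT** -/
theorem j_root (hREF : J_REF) (hVal : E_VAL) (hN2 : E_N2) : J_ROOT := by
  intro M _ b C s α hb hC hodd hα t ρ hAD
  obtain ⟨⟨z, hz, ht⟩, hρ, hρ4, hdv⟩ := hAD
  have hs := hC.pos
  have hαc : α ∈ AddSubgroup.closure C := AddSubgroup.subset_closure hα
  have htc : t ∈ AddSubgroup.closure C := by
    rw [ht]; exact AddSubgroup.add_mem _ hαc (AddSubgroup.zsmul_mem _ hz 2)
  have ht0 := class_ne hN2 hb hC hα hz ht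
  have htp := hb.pos t ht0
  have h1 : ρ ∣ b t t := hdv t htc (by
    rw [ht, hb.add_right, hb.zsmul_right, hC.norm α hα]
    exact ⟨s + b α z, by ring⟩)
  refine ⟨by rw [one_mul]; exact Int.le_of_dvd htp h1, fun heq => ?_⟩
  rw [one_mul] at heq
  obtain ⟨h, hh⟩ := (hVal M b C s hb hC t htc).2
  have h2 : ρ = 2 * s * h := by rw [← heq, hh]
  have h3 : ¬ (2 : ℤ) ∣ h := by
    rintro ⟨k, rfl⟩
    have : ρ = 4 * (s * k) := by rw [h2]; ring
    omega
  have h4 : ∀ γ ∈ C, s * h ∣ b t γ := by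
    intro γ hγ
    have h5 := hdv ((2 : ℤ) • γ) (AddSubgroup.zsmul_mem _ (AddSubgroup.subset_closure hγ) 2)
      (by rw [hb.zsmul_right]; exact dvd_mul_right _ _)
    rw [hb.zsmul_right, h2, mul_assoc] at h5
    exact (mul_dvd_mul_iff_left (by norm_num)).mp h5
  rcases hREF M b C s h t hb hC htc ht0 h3 hh h4 with h5 | ⟨h5, h6, h7⟩
  · left
    subst h5
    refine ⟨by rw [h2]; ring, ?_⟩
    exact root_one hVal hb hC hα hz ht (by rw [hh]; ring)
  · right
    subst h5
    refine ⟨by rw [h2]; ring, ?_, h6, h7⟩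
    exact root_three hVal hb hC hα hz ht (by rw [hh]; ring) (by
      have := h4 α hα
      rwa [mul_comm] at this)

/-- **J_EV** -/
theorem j_ev (hREF : J_REF) (hVal : E_VAL) (hN2 : E_N2) : J_EV := by
  intro M _ b C s α hb hC hev hα t ρ hAD
  obtain ⟨⟨z, hz, ht⟩, hρ, hρ4, hdv⟩ := hAD
  have hs := hC.pos
  have hαc : α ∈ AddSubgroup.closure C := AddSubgroup.subset_closure hα
  have htc : t ∈ AddSubgroup.closure C := by
    rw [ht]; exact AddSubgroup.add_mem _ hαc (AddSubgroup.zsmul_mem _ hz 2)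
  have ht0 := class_ne hN2 hb hC hα hz ht
  have htp := hb.pos t ht0
  have hdv' : ∀ y ∈ AddSubgroup.closure C, ρ ∣ b t y := fun y hy =>
    hdv y hy (dvd_trans hev ((hVal M b C s hb hC α hαc).1 y hy))
  obtain ⟨h, hh⟩ := (hVal M b C s hb hC t htc).2
  obtain ⟨s', hs'⟩ := hev
  have h1 : 2 * ρ ∣ b t t := by
    have h5 := hdv' t htc
    obtain ⟨ρ', hρ'⟩ : ∃ ρ', ρ = 2 * ρ' := ⟨ρ / 2, by omega⟩
    have h6 : (4 : ℤ) ∣ b t t := ⟨s' * h, by rw [hh, hs']; ring⟩
    have h7 : IsCoprime (4 : ℤ) ρ' := by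
      have : ¬ (2 : ℤ) ∣ ρ' := by omega
      have h8 : IsCoprime (2 : ℤ) ρ' := (Int.prime_two.coprime_iff_not_dvd).mpr this
      have : (4 : ℤ) = 2 * 2 := by norm_num
      rw [this]
      exact h8.mul_left h8
    have h8 : ρ' ∣ b t t := dvd_trans ⟨2, by rw [hρ']; ring⟩ h5
    have h9 := h7.mul_dvd h6 h8
    rw [hρ']
    have : 2 * (2 * ρ') = 4 * ρ' := by ring
    rwa [this]
  refine ⟨Int.le_of_dvd htp h1, fun heq => ?_⟩
  have h2 : ρ = s * h := by
    have : 2 * ρ = 2 * (s * h) := by rw [← heq, hh]; ring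
    linarith
  have h3 : ¬ (2 : ℤ) ∣ h := by
    rintro ⟨k, rfl⟩
    have : ρ = 4 * (s' * k) := by rw [h2, hs']; ring
    omega
  have h4 : ∀ γ ∈ C, s * h ∣ b t γ := by
    intro γ hγ
    rw [← h2]
    exact hdv' γ (AddSubgroup.subset_closure hγ)
  rcases hREF M b C s h t hb hC htc ht0 h3 hh h4 with h5 | ⟨h5, h6, h7⟩
  · left
    subst h5
    refine ⟨by rw [h2]; ring, ?_⟩
    exact root_one hVal hb hC hα hz ht (by rw [hh]; ring)
  · right
    subst h5
    refine ⟨by rw [h2]; ring, ?_, h6, h7⟩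
    exact root_three hVal hb hC hα hz ht (by rw [hh]; ring) (by
      have := h4 α hα
      rwa [mul_comm] at this)

end Pool.Agent.CN2.H40
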